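import Pool.Agent.H76.GU.Targets

/-!
# Board gu (MP_52e316_nt), row BLK: algebra of the block groups
-/

set_option autoImplicit false

namespace Pool.Agent.H67.GU

open MeasureTheory Pool.Agent.H34.GM Pool.Agent.H34.GZ Pool.Agent.H34.GU Pool.Agent.H76.GU

section Ring

variable {m : ℕ} {R : Type} [CommRing R]

/-- the block of the rows `≥ k` and the columns `< k` only -/
def Stri (k : ℕ) (X : Matrix (Fin m) (Fin m) R) : Prop :=
  ∀ i j : Fin m, ¬ ((j : ℕ) < k ∧ k ≤ (i : ℕ)) → X i j = 0

/-- block lower triangular -/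
def Lowt (k : ℕ) (X : Matrix (Fin m) (Fin m) R) : Prop :=
  ∀ i j : Fin m, (i : ℕ) < k → k ≤ (j : ℕ) → X i j = 0

/-- block diagonal -/
def Diab (k : ℕ) (X : Matrix (Fin m) (Fin m) R) : Prop :=
  ∀ i j : Fin m, ((i : ℕ) < k ∧ k ≤ (j : ℕ)) ∨ ((j : ℕ) < k ∧ k ≤ (i : ℕ)) → X i j = 0

open Classical in
/-- the diagonal blocks -/
def dia (k : ℕ) (X : Matrix (Fin m) (Fin m) R) : Matrix (Fin m) (Fin m) R :=
  Matrix.of fun i j => if ((i : ℕ) < k ↔ (j : ℕ) < k) then X i j else 0

theorem dia_of_diab {k : ℕ} {X : Matrix (Fin m) (Fin m) R} (h : Diab k X) : dia k X = X := by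
  ext i j
  simp only [dia, Matrix.of_apply]
  split_ifs with h1
  · rfl
  · exact (h i j (by omega)).symm

theorem diab_dia (k : ℕ) (X : Matrix (Fin m) (Fin m) R) : Diab k (dia k X) := by
  intro i j hij
  simp only [dia, Matrix.of_apply]
  rw [if_neg (by omega)]

theorem dia_mul {k : ℕ} {X Y : Matrix (Fin m) (Fin m) R} (hX : Lowt k X) (hY : Lowt k Y) :
    dia k (X * Y) = dia k X * dia k Y := by
  ext i j
  simp only [dia, Matrix.of_apply, Matrix.mul_apply]
  split_ifs with h1
  · refine Finset.sum_congr rfl fun l _ => ?_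
    by_cases hi : (i : ℕ) < k
    · by_cases hl : (l : ℕ) < k
      · rw [if_pos (by tauto), if_pos (by tauto)]
      · rw [hX i l hi (by omega), if_neg (by tauto), zero_mul, zero_mul]
    · by_cases hl : (l : ℕ) < k
      · rw [hY l j hl (by omega), if_neg (by tauto), mul_zero, zero_mul]
      · rw [if_pos (by tauto), if_pos (by tauto)]
  · symm
    refine Finset.sum_eq_zero fun l _ => ?_
    by_cases hl : ((i : ℕ) < k ↔ (l : ℕ) < k)
    · rw [if_neg (c := ((l : ℕ) < k ↔ (j : ℕ) < k)) (by tauto), mul_zero]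
    · rw [if_neg hl, zero_mul]

theorem dia_one (k : ℕ) : dia k (1 : Matrix (Fin m) (Fin m) R) = 1 := by
  refine dia_of_diab fun i j hij => Matrix.one_apply_ne ?_
  rintro rfl
  omega

theorem lowt_inv {k : ℕ} {X : Matrix (Fin m) (Fin m) R} (hX : Lowt k X) (hu : IsUnit X) :
    Lowt k (Ring.inverse X) := by
  have : Invertible X := hu.invertible
  have hb : Matrix.BlockTriangular X (fun i : Fin m => if (i : ℕ) < k then (1 : ℕ) else 0) := by
    intro i j hij
    by_cases hi : (i : ℕ) < k
    · by_cases hj : (j : ℕ) < k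
      · simp [hi, hj] at hij
      · exact hX i j hi (by omega)
    · simp [hi] at hij
  have h2 := Matrix.blockTriangular_inv_of_blockTriangular hb
  have h3 : Ring.inverse X = X⁻¹ := by
    rw [Matrix.nonsing_inv_eq_ringInverse]
  rw [h3]
  intro i j hi hj
  refine h2 ?_
  simp only [hi, if_true, if_neg (not_lt.2 hj)]
  exact zero_lt_one

theorem rinv {X : Matrix (Fin m) (Fin m) R} (hu : IsUnit X) :
    X * Ring.inverse X = 1 ∧ Ring.inverse X * X = 1 :=
  ⟨Ring.mul_inverse_cancel _ hu, Ring.inverse_mul_cancel _ hu⟩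

theorem isUnit_dia {k : ℕ} {X : Matrix (Fin m) (Fin m) R} (hX : Lowt k X) (hu : IsUnit X) :
    IsUnit (dia k X) := by
  have h1 : dia k X * dia k (Ring.inverse X) = 1 := by
    rw [← dia_mul hX (lowt_inv hX hu), (rinv hu).1, dia_one]
  have h2 : dia k (Ring.inverse X) * dia k X = 1 := by
    rw [← dia_mul (lowt_inv hX hu) hX, (rinv hu).2, dia_one]
  exact ⟨⟨dia k X, dia k (Ring.inverse X), h1, h2⟩, rfl⟩

theorem Diab.lowt {k : ℕ} {X : Matrix (Fin m) (Fin m) R} (h : Diab k X) : Lowt k X :=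
  fun i j hi hj => h i j (Or.inl ⟨hi, hj⟩)

theorem diab_inv {k : ℕ} {X : Matrix (Fin m) (Fin m) R} (hX : Diab k X) (hu : IsUnit X) :
    Diab k (Ring.inverse X) := by
  have h1 : X * dia k (Ring.inverse X) = 1 := by
    have h2 := dia_mul hX.lowt (lowt_inv hX.lowt hu)
    rw [(rinv hu).1, dia_one, dia_of_diab hX] at h2
    exact h2.symm
  have h3 : Ring.inverse X = dia k (Ring.inverse X) := by
    calc Ring.inverse X = Ring.inverse X * (X * dia k (Ring.inverse X)) := by rw [h1, mul_one]
      _ = dia k (Ring.inverse X) := by rw [← mul_assoc, (rinv hu).2, one_mul]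
  rw [h3]
  exact diab_dia k _

theorem stri_mul_diab {k : ℕ} {X Y : Matrix (Fin m) (Fin m) R} (hX : Stri k X)
    (hY : Diab k Y) : Stri k (X * Y) := by
  intro i j hij
  rw [Matrix.mul_apply]
  refine Finset.sum_eq_zero fun l _ => ?_
  by_cases h1 : (l : ℕ) < k ∧ k ≤ (i : ℕ)
  · rw [hY l j (Or.inl ⟨h1.1, by omega⟩), mul_zero]
  · rw [hX i l h1, zero_mul]

theorem diab_mul_stri {k : ℕ} {X Y : Matrix (Fin m) (Fin m) R} (hX : Diab k X)
    (hY : Stri k Y) : Stri k (X * Y) := by
  intro i j hij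
  rw [Matrix.mul_apply]
  refine Finset.sum_eq_zero fun l _ => ?_
  by_cases h1 : (j : ℕ) < k ∧ k ≤ (l : ℕ)
  · rw [hX i l (Or.inl ⟨by omega, h1.2⟩), zero_mul]
  · rw [hY l j h1, mul_zero]

theorem stri_mul_stri {k : ℕ} {X Y : Matrix (Fin m) (Fin m) R} (hX : Stri k X)
    (hY : Stri k Y) : X * Y = 0 := by
  ext i j
  rw [Matrix.mul_apply, Matrix.zero_apply]
  refine Finset.sum_eq_zero fun l _ => ?_
  by_cases h1 : (l : ℕ) < k ∧ k ≤ (i : ℕ)
  · rw [hY l j (by omega), mul_zero]
  · rw [hX i l h1, zero_mul]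

theorem dia_stri {k : ℕ} {X : Matrix (Fin m) (Fin m) R} (hX : Stri k X) : dia k X = 0 := by
  ext i j
  simp only [dia, Matrix.of_apply, Matrix.zero_apply]
  split_ifs with h1
  · exact hX i j (by omega)
  · rfl

theorem dia_add (k : ℕ) (X Y : Matrix (Fin m) (Fin m) R) :
    dia k (X + Y) = dia k X + dia k Y := by
  ext i j
  simp only [dia, Matrix.of_apply, Matrix.add_apply]
  split_ifs
  · rfl
  · rw [add_zero]

theorem stri_sub_dia {k : ℕ} {X : Matrix (Fin m) (Fin m) R} (hX : Lowt k X) :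
    Stri k (X - dia k X) := by
  intro i j hij
  simp only [dia, Matrix.of_apply, Matrix.sub_apply]
  split_ifs with h1
  · rw [sub_self]
  · rw [hX i j (by omega) (by omega), sub_zero]

theorem isUnit_one_add {k : ℕ} {X : Matrix (Fin m) (Fin m) R} (hX : Stri k X) :
    IsUnit (1 + X) := by
  refine ⟨⟨1 + X, 1 - X, ?_, ?_⟩, rfl⟩
  · rw [add_mul, mul_sub, mul_sub, stri_mul_stri hX hX]
    simp
  · rw [sub_mul, mul_add, mul_add, stri_mul_stri hX hX]
    simp

end Ring

theorem inN_iff {m : ℕ} (k : ℕ) (n : ZM m) : InN k n ↔ Stri k (n - 1) := by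
  unfold InN Stri
  simp only [Matrix.sub_apply, sub_eq_zero]

theorem stri_nk {m : ℕ} (k : ℕ) (u : V m) : Stri k (nk k u) := by
  intro i j hij
  simp only [nk, Matrix.of_apply]
  rw [if_neg hij]

theorem nk_eq {m : ℕ} (k : ℕ) (X : Mat m) (hX : Stri k X) : nk k (fun i j => X i j) = X := by
  ext i j
  simp only [nk, Matrix.of_apply]
  split_ifs with h1
  · rfl
  · exact (hX i j h1).symm

theorem diab_cR {m : ℕ} {k : ℕ} {q : ZM m} (h : Diab k q) : Diab k (cR q) := by
  intro i j hij
  simp only [cR, Matrix.map_apply]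
  rw [h i j hij, Int.cast_zero]

theorem cR_mul {m : ℕ} (a b : ZM m) : cR (a * b) = cR a * cR b := by
  unfold cR
  exact Matrix.map_mul (f := Int.castRingHom ℝ)

theorem cR_one {m : ℕ} : cR (1 : ZM m) = 1 := by
  unfold cR
  ext i j
  by_cases h : i = j
  · subst h
    simp
  · simp [h]

theorem pf_BLK : T_BLK := by
  intro m k hk
  have hunitN : ∀ n : ZM m, InN k n → IsUnit n := by
    intro n hn
    have h1 := isUnit_one_add ((inN_iff k n).1 hn)
    rwa [add_sub_cancel] at h1
  have hQ : ∀ q : ZM m, InQ k q → Diab k q := fun q hq => hq.2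
  have hprod : ∀ n q : ZM m, InN k n → InQ k q → InP k (n * q) ∧ dia k (n * q) = q := by
    intro n q hn hq
    have h1 := (inN_iff k n).1 hn
    have h2 : n * q = q + (n - 1) * q := by
      rw [sub_mul, one_mul]
      abel
    have h3 := stri_mul_diab h1 (hQ q hq)
    refine ⟨⟨(hunitN n hn).mul hq.1, ?_⟩, ?_⟩
    · intro i j hi hj
      rw [h2, Matrix.add_apply, hq.2 i j (Or.inl ⟨hi, hj⟩), h3 i j (by omega), add_zero]
    · rw [h2, dia_add, dia_of_diab (hQ q hq), dia_stri h3, add_zero]
  refine ⟨?_, hunitN, ?_, ?_, ?_⟩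
  · let f : {n : ZM m // InN k n} × {q : ZM m // InQ k q} → {p : ZM m // InP k p} :=
      fun x => ⟨(x.1 : ZM m) * (x.2 : ZM m), (hprod _ _ x.1.2 x.2.2).1⟩
    have hf : Function.Bijective f := by
      constructor
      · rintro ⟨⟨n, hn⟩, ⟨q, hq⟩⟩ ⟨⟨n', hn'⟩, ⟨q', hq'⟩⟩ hff
        have h1 : n * q = n' * q' := congrArg Subtype.val hff
        have h2 : q = q' := by
          rw [← (hprod n q hn hq).2, ← (hprod n' q' hn' hq').2, h1]
        subst h2
        have h3 : n = n' := by
          calc n = n * (q * Ring.inverse q) := by rw [(rinv hq.1).1, mul_one]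
            _ = n' * (q * Ring.inverse q) := by rw [← mul_assoc, h1, mul_assoc]
            _ = n' := by rw [(rinv hq.1).1, mul_one]
        subst h3
        rfl
      · rintro ⟨p, hp⟩
        have hl : Lowt k p := hp.2
        have hu := isUnit_dia hl hp.1
        have hqd : InQ k (dia k p) := ⟨hu, diab_dia k p⟩
        have hn : InN k (p * Ring.inverse (dia k p)) := by
          rw [inN_iff]
          have h1 : p * Ring.inverse (dia k p) - 1 =
              (p - dia k p) * Ring.inverse (dia k p) := by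
            rw [sub_mul, (rinv hu).1]
          rw [h1]
          exact stri_mul_diab (stri_sub_dia hl) (diab_inv (diab_dia k p) hu)
        refine ⟨(⟨_, hn⟩, ⟨_, hqd⟩), Subtype.ext ?_⟩
        change p * Ring.inverse (dia k p) * dia k p = p
        rw [mul_assoc, (rinv hu).2, mul_one]
    exact ⟨Equiv.ofBijective f hf, fun x => rfl⟩
  · intro q hq u
    have hd := diab_cR (hQ q hq)
    have hd2 := diab_cR (diab_inv (hQ q hq) hq.1)
    have h1 : Stri k (cR q * nk k u * cR (Ring.inverse q)) :=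
      stri_mul_diab (diab_mul_stri hd (stri_nk k u)) hd2
    refine ⟨fun i j => (cR q * nk k u * cR (Ring.inverse q)) i j, ?_⟩
    rw [nk_eq k _ h1, mul_add, mul_one, add_mul, one_mul, mul_assoc (cR q * nk k u), ← cR_mul,
      (rinv hq.1).2, cR_one, mul_one]
  · intro n
    constructor
    · intro hn
      refine ⟨fun i j => (n i j : ℝ), ?_⟩
      ext i j
      simp only [cR, Matrix.map_apply, nk, Matrix.add_apply, Matrix.of_apply]
      by_cases h1 : (j : ℕ) < k ∧ k ≤ (i : ℕ)
      · rw [if_pos h1, Matrix.one_apply_ne (by rintro rfl; omega), zero_add]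
      · rw [if_neg h1, hn i j h1, add_zero]
        by_cases h : i = j
        · subst h
          simp
        · rw [Matrix.one_apply_ne h, Matrix.one_apply_ne h, Int.cast_zero]
    · rintro ⟨u, hu⟩ i j hij
      have h1 := congrFun (congrFun hu i) j
      simp only [cR, Matrix.map_apply, nk, Matrix.add_apply, Matrix.of_apply] at h1
      rw [if_neg hij, add_zero] at h1
      by_cases h : i = j
      · subst h
        rw [Matrix.one_apply_eq] at h1 ⊢
        exact_mod_cast h1
      · rw [Matrix.one_apply_ne h] at h1 ⊢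
        exact_mod_cast h1
  · intro u w
    rw [Matrix.det_mul]
    have h1 : (1 + nk k u : Mat m).det = 1 := by
      rw [Matrix.det_of_isLowerTriangular]
      · refine Finset.prod_eq_one fun i _ => ?_
        rw [Matrix.add_apply, Matrix.one_apply_eq, stri_nk k u i i (by omega), add_zero]
      · intro i j hij
        have hij' : i < j := hij
        rw [Matrix.add_apply, Matrix.one_apply_ne hij'.ne, stri_nk k u i j (by
          have : (i : ℕ) < j := hij'
          omega), add_zero]
    rw [h1, one_mul]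

end Pool.Agent.H67.GU
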